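import Mathlib

namespace Pool.Agent.H.MP_2232d5_co

/-- The factor `y_i ⋯ y_{i+n-1}`. -/
def fac (y : ℕ → ℕ) (i n : ℕ) : List ℕ := List.ofFn fun t : Fin n => y (i + t)

/-- No factor of `y` has the form `u u` with `u` non-empty. -/
def SqFree (y : ℕ → ℕ) : Prop := ∀ (i n : ℕ) (u : List ℕ), u ≠ [] → fac y i n ≠ u ++ u

/-- Initial non-repetitive complexity (`⊤` when no length-`n` factor repeats). -/
noncomputable def nsc (y : ℕ → ℕ) (n : ℕ) : ℕ∞ :=
  sSup {m : ℕ∞ | ∃ k : ℕ, m = k ∧ ∀ i j, i < j → j < k → fac y i n ≠ fac y j n}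

/-- Zimin words. -/
def Z : ℕ → List ℕ
  | 0 => []
  | k + 1 => Z k ++ k :: Z k

/-- `x` has every Zimin word as a prefix. -/
def IsRuler (x : ℕ → ℕ) : Prop := ∀ k, fac x 0 (Z k).length = Z k

end Pool.Agent.H.MP_2232d5_co
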