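import Pool.Agent.H.MP_2232d5_co.Defs

namespace Pool.Agent.H.MP_2232d5_co

def E (y : ℕ → ℕ) (d a b : ℕ) : Prop := ∀ x, a ≤ x → x < b → y x = y (x + d)

def Sq (y : ℕ → ℕ) : Prop := ∀ d a b, 0 < d → E y d a b → b < a + d

def Rep (y : ℕ → ℕ) : Prop := ∀ n, 1 ≤ n → ∃ i d, 0 < d ∧ i + d ≤ 2 * n ∧ E y d i (i + n)

lemma fac_eq (y : ℕ → ℕ) (i j n : ℕ) :
    fac y i n = fac y j n ↔ ∀ t, t < n → y (i + t) = y (j + t) := by
  unfold fac
  rw [List.ofFn_inj]
  exact ⟨fun h t ht => congrFun h ⟨t, ht⟩, fun h => funext fun t => h t t.2⟩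

lemma fac_add (y : ℕ → ℕ) (i m n : ℕ) : fac y i (m + n) = fac y i m ++ fac y (i + m) n := by
  unfold fac
  rw [List.ofFn_add]
  simp [add_assoc]

lemma fac_len (y : ℕ → ℕ) (i n : ℕ) : (fac y i n).length = n := by simp [fac]

lemma fac_E (y : ℕ → ℕ) (i d n : ℕ) : fac y i n = fac y (i + d) n ↔ E y d i (i + n) := by
  rw [fac_eq]
  constructor
  · intro h x h1 h2
    have := h (x - i) (by omega)
    rwa [show i + (x - i) = x by omega, show i + d + (x - i) = x + d by omega] at this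
  · intro h t ht
    rw [h (i + t) (by omega) (by omega)]
    congr 1
    omega

lemma sq_iff (y : ℕ → ℕ) : SqFree y ↔ Sq y := by
  constructor
  · intro h d a b hd hE
    by_contra hb
    have h1 : fac y a d = fac y (a + d) d := (fac_E _ _ _ _).2 fun x h1 h2 => hE x h1 (by omega)
    refine h a (d + d) (fac y a d) ?_ (by rw [fac_add, ← h1])
    intro e
    have := fac_len y a d
    rw [e] at this
    simp at this
    omega
  · intro h i n u hu e
    have hl := congrArg List.length e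
    rw [fac_len, List.length_append] at hl
    subst hl
    rw [fac_add] at e
    obtain ⟨e1, e2⟩ := List.append_inj e (fac_len _ _ _)
    have := h u.length i (i + u.length) (List.length_pos_iff.2 hu)
      ((fac_E _ _ _ _).1 (e1.trans e2.symm))
    omega

lemma nsc_iff (y : ℕ → ℕ) (n : ℕ) :
    nsc y n ≤ 2 * n ↔ ∃ i d, 0 < d ∧ i + d ≤ 2 * n ∧ E y d i (i + n) := by
  unfold nsc
  rw [sSup_le_iff]
  constructor
  · intro h
    by_contra hc
    have := h ((2 * n + 1 : ℕ) : ℕ∞) ⟨2 * n + 1, rfl, fun i j hij hj e => hc ⟨i, j - i, by omega,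
      by omega, (fac_E _ _ _ _).1 (by rwa [show i + (j - i) = j by omega])⟩⟩
    have h2 : ((2 * n + 1 : ℕ) : ℕ∞) ≤ ((2 * n : ℕ) : ℕ∞) := by simpa using this
    rw [Nat.cast_le] at h2
    omega
  · rintro ⟨i, d, hd, hid, hE⟩ m ⟨k, rfl, hk⟩
    have : k ≤ 2 * n := by
      by_contra hc
      exact hk i (i + d) (by omega) (by omega) ((fac_E _ _ _ _).2 hE)
    exact_mod_cast this

/-- a right-maximal repetition with a minimality property -/
def G (y : ℕ → ℕ) (r : ℕ × ℕ × ℕ) : Prop :=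
  0 < r.2.1 ∧ E y r.2.1 r.1 (r.1 + r.2.2) ∧ y (r.1 + r.2.2) ≠ y (r.1 + r.2.2 + r.2.1) ∧
    r.1 ≤ r.2.2 ∧ ∀ i d L, 0 < d → r.2.2 < L → E y d i (i + L) → r.1 + r.2.1 ≤ i + d

lemma step {y : ℕ → ℕ} (hs : Sq y) (hr : Rep y) (l : ℕ) :
    ∃ r', G y r' ∧ l < r'.2.2 ∧ r'.1 + r'.2.1 ≤ 2 * l + 2 := by
  classical
  obtain ⟨i0, d0, h0, h1, h2⟩ := hr (l + 1) (by omega)
  have hex : ∃ j, ∃ i d, 0 < d ∧ i + d = j ∧ E y d i (i + (l + 1)) := ⟨_, i0, d0, h0, rfl, h2⟩
  obtain ⟨i, d, hd, hj, hE⟩ := Nat.find_spec hex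
  have hmin : ∀ i' d', 0 < d' → E y d' i' (i' + (l + 1)) → i + d ≤ i' + d' := by
    intro i' d' a b
    rw [hj]
    exact Nat.find_min' hex ⟨i', d', a, rfl, b⟩
  have hex2 : ∃ t, y (i + t) ≠ y (i + t + d) := by
    by_contra hc
    push Not at hc
    have := hs d i (i + d) hd (fun x h1 _ => by
      have := hc (x - i)
      rwa [show i + (x - i) = x by omega] at this)
    omega
  have hL := Nat.find_spec hex2
  have hL' : E y d i (i + Nat.find hex2) := by
    intro x h1 h2
    have := Nat.find_min hex2 (show x - i < Nat.find hex2 by omega)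
    rw [show i + (x - i) = x by omega] at this
    exact not_not.1 this
  have hlt : l < Nat.find hex2 := by
    by_contra hc
    exact hL (hE _ (by omega) (by omega))
  have hb := hmin i0 d0 h0 h2
  have hb2 := hs d i _ hd hL'
  refine ⟨(i, d, Nat.find hex2), ⟨hd, hL', hL, by dsimp only; omega, ?_⟩, hlt, by dsimp only; omega⟩
  intro i' d' L a b c
  dsimp only at b ⊢
  exact hmin i' d' a fun x h1 h2 => c x h1 (by omega)

lemma facts {y : ℕ → ℕ} (hs : Sq y) {i d l i' d' l' : ℕ} (h : G y (i, d, l))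
    (h' : G y (i', d', l')) (hl : l < l') (hj : i' + d' ≤ 2 * l + 2) :
    l < d ∧ l' < d' ∧ i + d ≤ i' + d' ∧ d < d' ∧ min (i + l) (i' + l') + d < max i i' + d' := by
  obtain ⟨a1, a2, a3, a4, a5⟩ := h
  obtain ⟨b1, b2, b3, b4, b5⟩ := h'
  dsimp only at *
  have c1 := hs _ _ _ a1 a2
  have c2 := hs _ _ _ b1 b2
  have c3 := a5 i' d' l' b1 hl b2
  have c4 : d < d' := by
    rcases lt_trichotomy d d' with h | h | h
    · exact h
    · subst h
      exact absurd (b2 _ (by omega) (by omega)) a3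
    · exfalso
      have := hs (d - d') (i' + d' - d) (i + l) (by omega) (fun x h1 h2 => by
        rw [a2 x (by omega) h2, b2 (x + (d - d')) (by omega) (by omega)]
        congr 1
        omega)
      omega
  refine ⟨by omega, by omega, c3, c4, ?_⟩
  have := hs (d' - d) (max i i' + d) (min (i + l) (i' + l') + d) (by omega) (fun x h1 h2 => by
    have e1 := a2 (x - d) (by omega) (by omega)
    have e2 := b2 (x - d) (by omega) (by omega)
    rw [show x - d + d = x by omega] at e1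
    rw [← e1, e2]
    congr 1
    omega)
  omega

def Perf (r : ℕ × ℕ × ℕ) : Prop := r.1 = 0 ∧ r.2.1 = r.2.2 + 1

lemma triple {y : ℕ → ℕ} (hs : Sq y) {i d l i' d' l' i'' d'' l'' : ℕ} (h : G y (i, d, l))
    (h' : G y (i', d', l')) (h'' : G y (i'', d'', l'')) (hl : l < l')
    (hj : i' + d' ≤ 2 * l + 2) (hl' : l' < l'') (hj' : i'' + d'' ≤ 2 * l' + 2)
    (hp : Perf (i'', d'', l'')) : Perf (i', d', l') := by
  have f1 := facts hs h h' hl hj
  have f2 := facts hs h' h'' hl' hj'
  obtain ⟨a1, a2, a3, a4, -⟩ := h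
  obtain ⟨b1, b2, b3, b4, -⟩ := h'
  obtain ⟨c1, c2, c3, c4, -⟩ := h''
  unfold Perf at *
  dsimp only at *
  by_contra hc
  have e1 : d' = l' + 1 := by omega
  have e2 : d'' = 2 * l' + 2 := by omega
  have e3 : 0 < i' := by omega
  have e4 : i = 0 ∧ d = l + 1 := by omega
  have e5 : i' + d' = 2 * l + 2 := by omega
  have := hs (l - i' + 1) (i' + d' + l' - (l - i' + 1)) (i' + d' + l') (by omega)
    (fun x h1 h2 => by
      have u1 := b2 (x - d') (by omega) (by omega)
      have u2 := a2 (x - d' - d) (by omega) (by omega)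
      have u3 := c2 (x - d' - d) (by omega) (by omega)
      rw [show x - d' + d' = x by omega] at u1
      rw [show x - d' - d + d = x - d' by omega] at u2
      rw [← u1, ← u2, u3]
      congr 1
      omega)
  omega

lemma structure_thm {y : ℕ → ℕ} (hs : Sq y) (hr : Rep y) (k : ℕ) :
    E y (2 ^ k) 0 (2 ^ k - 1) := by
  choose nx h1 h2 h3 using step hs hr
  obtain ⟨r, hr0, hr⟩ : ∃ r : ℕ → ℕ × ℕ × ℕ, r 0 = (0, 1, 0) ∧ ∀ k, r (k + 1) = nx (r k).2.2 :=
    ⟨fun k => (fun p => nx p.2.2)^[k] (0, 1, 0), rfl, fun k => Function.iterate_succ_apply' _ _ _⟩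
  have hG : ∀ k, G y (r k) := by
    intro k
    cases k with
    | zero =>
      rw [hr0]
      refine ⟨one_pos, fun x _ h => absurd h (by simp), ?_, le_rfl, ?_⟩
      · intro e
        have := hs 1 0 1 one_pos (fun x _ h => by
          obtain rfl : x = 0 := by omega
          exact e)
        omega
      · intro i d L hd _ _
        change 0 + 1 ≤ i + d
        omega
    | succ k => rw [hr]; exact h1 _
  have hl : ∀ k, (r k).2.2 < (r (k + 1)).2.2 := fun k => by rw [hr]; exact h2 _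
  have hj : ∀ k, (r (k + 1)).1 + (r (k + 1)).2.1 ≤ 2 * (r k).2.2 + 2 := fun k => by
    rw [hr]; exact h3 _
  have hF : ∀ k, (r k).2.2 < (r k).2.1 ∧ (r (k + 1)).2.2 < (r (k + 1)).2.1 ∧
      (r k).1 + (r k).2.1 ≤ (r (k + 1)).1 + (r (k + 1)).2.1 ∧ (r k).2.1 < (r (k + 1)).2.1 ∧
      min ((r k).1 + (r k).2.2) ((r (k + 1)).1 + (r (k + 1)).2.2) + (r k).2.1 <
        max (r k).1 (r (k + 1)).1 + (r (k + 1)).2.1 :=
    fun k => facts hs (hG k) (hG (k + 1)) (hl k) (hj k)
  have hT : ∀ k, Perf (r (k + 2)) → Perf (r (k + 1)) := fun k =>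
    triple hs (hG k) (hG (k + 1)) (hG (k + 2)) (hl k) (hj k) (hl (k + 1)) (hj (k + 1))
  have hP : ∀ k, Perf (r (k + 1)) := by
    intro k
    by_contra hc
    have key : ∀ t, ¬ Perf (r (k + t + 1)) ∧ (r (k + t + 1)).1 + t ≤ (r (k + 1)).1 := by
      intro t
      induction t with
      | zero => exact ⟨hc, le_rfl⟩
      | succ t ih =>
        refine ⟨fun h => ih.1 (hT _ h), ?_⟩
        have a := hF (k + t + 1)
        have b := hl (k + t + 1)
        have c := hj (k + t + 1)
        have e := ih.1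
        have f := ih.2
        unfold Perf at e
        rw [show k + (t + 1) + 1 = k + t + 1 + 1 by omega]
        omega
    have := (key ((r (k + 1)).1 + 1)).2
    omega
  have hP' : ∀ k, Perf (r k) := by
    intro k
    cases k with
    | zero => rw [hr0]; exact ⟨rfl, rfl⟩
    | succ k => exact hP k
  have hd : ∀ k, (r k).2.1 = 2 ^ k := by
    intro k
    induction k with
    | zero => rw [hr0]; rfl
    | succ k ih =>
      have a := hF k
      have b := hl k
      have c := hj k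
      have e := hP' k
      have f := hP' (k + 1)
      unfold Perf at e f
      rw [pow_succ]
      omega
  have a := (hG k).2.1
  have e := hP' k
  unfold Perf at e
  rw [e.1, hd k] at a
  rw [hd k] at e
  intro x h1 h2
  exact a x h1 (by omega)

lemma Z_len (k : ℕ) : (Z k).length + 1 = 2 ^ k := by
  induction k with
  | zero => rfl
  | succ k ih => simp only [Z, List.length_append, List.length_cons, pow_succ]; omega

lemma ruler_facts {x : ℕ → ℕ} (hx : IsRuler x) (k : ℕ) :
    x (2 ^ k - 1) = k ∧ E x (2 ^ k) 0 (2 ^ k - 1) := by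
  have h1 := hx (k + 1)
  have hl := Z_len k
  rw [show (Z (k + 1)).length = (Z k).length + (1 + (Z k).length) by
    simp only [Z, List.length_append, List.length_cons]; omega, fac_add, fac_add, hx k] at h1
  have h2 : fac x (0 + (Z k).length) 1 ++ fac x (0 + (Z k).length + 1) (Z k).length =
      [k] ++ Z k := List.append_cancel_left h1
  obtain ⟨e1, e2⟩ := List.append_inj h2 (fac_len _ _ _)
  constructor
  · have : x ((Z k).length) = k := by simpa [fac] using e1
    rw [← hl]; exact this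
  · have := (fac_E x 0 ((Z k).length + 1) (Z k).length).1 (by
      rw [hx k, ← add_assoc, e2])
    rw [hl] at this
    intro t h1 h2
    exact this t h1 (by omega)

lemma rec_eq {y z : ℕ → ℕ} (hy : ∀ k, E y (2 ^ k) 0 (2 ^ k - 1))
    (hz : ∀ k, E z (2 ^ k) 0 (2 ^ k - 1)) (h : ∀ k, y (2 ^ k - 1) = z (2 ^ k - 1)) (n : ℕ) :
    y n = z n := by
  induction n using Nat.strong_induction_on with
  | _ n ih =>
    have h1 := Nat.pow_log_le_self 2 (show n + 1 ≠ 0 by omega)
    have h2 := Nat.lt_pow_succ_log_self (b := 2) (by norm_num) (n + 1)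
    set k := Nat.log 2 (n + 1)
    rw [pow_succ] at h2
    have hp : 0 < 2 ^ k := by positivity
    by_cases e : n + 1 = 2 ^ k
    · have := h k
      rwa [show 2 ^ k - 1 = n by omega] at this
    · have a := hy k (n - 2 ^ k) (by omega) (by omega)
      have b := hz k (n - 2 ^ k) (by omega) (by omega)
      rw [show n - 2 ^ k + 2 ^ k = n by omega] at a b
      rw [← a, ← b]
      exact ih _ (by omega)

def nu (n : ℕ) : ℕ := padicValNat 2 (n + 1)

lemma nu_iff (n m : ℕ) : m ≤ nu n ↔ 2 ^ m ∣ n + 1 :=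
  (padicValNat_dvd_iff_le (Nat.succ_ne_zero n)).symm

lemma nu_pow (k : ℕ) : nu (2 ^ k - 1) = k := by
  have hp : 0 < 2 ^ k := by positivity
  unfold nu
  rw [show 2 ^ k - 1 + 1 = 2 ^ k by omega, padicValNat.prime_pow]

lemma nu_shift (k c t : ℕ) (h : ¬ 2 ^ k ∣ t + 1) : nu t = nu (t + c * 2 ^ k) := by
  have key : ∀ m, m ≤ k → (m ≤ nu t ↔ m ≤ nu (t + c * 2 ^ k)) := by
    intro m hm
    rw [nu_iff, nu_iff, show t + c * 2 ^ k + 1 = t + 1 + c * 2 ^ k by omega]
    exact (Nat.dvd_add_left (Dvd.dvd.mul_left (pow_dvd_pow 2 hm) c)).symm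
  have h1 : ¬ k ≤ nu t := by rwa [nu_iff]
  have h2 : ¬ k ≤ nu (t + c * 2 ^ k) := by rwa [← key k le_rfl]
  have h3 := (key (nu t) (by omega)).1 le_rfl
  have h4 := (key (nu (t + c * 2 ^ k)) (by omega)).2 le_rfl
  omega

lemma nu_E (k : ℕ) : E nu (2 ^ k) 0 (2 ^ k - 1) := by
  intro t _ h
  have := nu_shift k 1 t (Nat.not_dvd_of_pos_of_lt (by omega) (by omega))
  rwa [one_mul] at this

lemma ruler_eq {x : ℕ → ℕ} (hx : IsRuler x) : x = nu :=
  funext (rec_eq (fun k => (ruler_facts hx k).2) nu_E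
    (fun k => by rw [(ruler_facts hx k).1, nu_pow]))

lemma nu_ruler : IsRuler nu := by
  intro k
  induction k with
  | zero => rfl
  | succ k ih =>
    have hl := Z_len k
    rw [show (Z (k + 1)).length = (Z k).length + (1 + (Z k).length) by
      simp only [Z, List.length_append, List.length_cons]; omega, fac_add, fac_add, ih]
    have e2 := (fac_E nu 0 ((Z k).length + 1) (Z k).length).2 (by
      rw [hl]
      intro t h1 h2
      exact nu_E k t h1 (by omega))
    rw [add_assoc, ← e2, ih]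
    have e1 : fac nu (0 + (Z k).length) 1 = [k] := by
      have := nu_pow k
      rw [← hl] at this
      simpa [fac] using this
    rw [e1]
    rfl

lemma nu_sq : Sq nu := by
  intro d a b hd hE
  by_contra hb
  obtain ⟨m, q, hq, rfl⟩ := Nat.exists_eq_two_pow_mul_odd hd.ne'
  have hp : 0 < 2 ^ m := by positivity
  have hq1 : 1 ≤ q := hq.pos
  have hle : 2 ^ m ≤ 2 ^ m * q := Nat.le_mul_of_pos_right _ hq1
  obtain ⟨c, hc⟩ : ∃ c, a < 2 ^ m * c ∧ 2 ^ m * c ≤ a + 2 ^ m := by
    refine ⟨a / 2 ^ m + 1, ?_, ?_⟩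
    · exact Nat.lt_mul_div_succ a hp
    · have := Nat.mul_div_le a (2 ^ m)
      rw [mul_add]; omega
  have h1 := hE (2 ^ m * c - 1) (by omega) (by omega)
  have e1 : 2 ^ m * c - 1 + 1 = 2 ^ m * c := by omega
  have e2 : 2 ^ m * c - 1 + 2 ^ m * q + 1 = 2 ^ m * (c + q) := by rw [mul_add]; omega
  have k1 := nu_iff (2 ^ m * c - 1) (m + 1)
  have k2 := nu_iff (2 ^ m * c - 1 + 2 ^ m * q) (m + 1)
  rw [← h1, k1, e1, e2, pow_succ, Nat.mul_dvd_mul_iff_left hp, Nat.mul_dvd_mul_iff_left hp] at k2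
  obtain ⟨s, rfl⟩ := hq
  omega

lemma inj_of {y : ℕ → ℕ} (hs : Sq y) {σ : ℕ → ℕ} (h : ∀ n, y n = σ (nu n)) :
    Function.Injective σ := by
  have key : ∀ a b, a < b → σ a ≠ σ b := by
    intro a b hab e
    obtain ⟨c, rfl⟩ := Nat.exists_eq_add_of_lt hab
    have hp : 0 < 2 ^ a := by positivity
    have hc : 0 < 2 ^ c := by positivity
    have e0 : 2 ^ (a + c + 1) = (2 * 2 ^ c - 1) * 2 ^ a + 2 ^ a := by
      rw [← add_one_mul, show 2 * 2 ^ c - 1 + 1 = 2 * 2 ^ c by omega]; ring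
    have hpos : 0 < (2 * 2 ^ c - 1) * 2 ^ a := Nat.mul_pos (by omega) hp
    have := hs (2 ^ a) ((2 * 2 ^ c - 1) * 2 ^ a - 1) ((2 * 2 ^ c - 1) * 2 ^ a - 1 + 2 ^ a) hp
      (fun t h1 h2 => by
        rw [h, h]
        by_cases ht : t = (2 * 2 ^ c - 1) * 2 ^ a - 1
        · have u1 : nu (t + 2 ^ a) = a + c + 1 := by
            rw [show t + 2 ^ a = 2 ^ (a + c + 1) - 1 by omega, nu_pow]
          have u2 : nu t = a := by
            have v := nu_shift (a + 1) (2 ^ c - 1) (2 ^ a - 1)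
              (Nat.not_dvd_of_pos_of_lt (by omega) (by rw [pow_succ]; omega))
            rw [nu_pow] at v
            rw [v]
            congr 1
            have w : (2 * 2 ^ c - 1) * 2 ^ a = 2 ^ a + (2 ^ c - 1) * 2 ^ (a + 1) := by
              obtain ⟨g, hg⟩ : ∃ g, 2 ^ c = g + 1 := ⟨2 ^ c - 1, by omega⟩
              rw [hg, show 2 * (g + 1) - 1 = 2 * g + 1 by omega, Nat.add_sub_cancel]; ring
            omega
          rw [u1, u2, e]
        · have v := nu_shift a 1 t (by
            intro hd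
            have h3 : 2 ^ a ∣ t + 1 - (2 * 2 ^ c - 1) * 2 ^ a :=
              Nat.dvd_sub hd (Dvd.intro_left _ rfl)
            exact Nat.not_dvd_of_pos_of_lt (by omega) (by omega) h3)
          rw [one_mul] at v
          rw [v])
    omega
  intro a b e
  rcases lt_trichotomy a b with h | h | h
  · exact absurd e (key a b h)
  · exact h
  · exact absurd e.symm (key b a h)

theorem main (y : ℕ → ℕ) : (SqFree y ∧ ∀ n : ℕ, 1 ≤ n → nsc y n ≤ 2 * n) ↔
    ∃ σ : ℕ → ℕ, Function.Injective σ ∧ y = σ ∘ nu := by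
  rw [sq_iff]
  simp only [nsc_iff]
  constructor
  · rintro ⟨hs, hr⟩
    have h : ∀ n, y n = y (2 ^ nu n - 1) :=
      rec_eq (structure_thm hs hr) (z := fun n => y (2 ^ nu n - 1))
        (fun k t h1 h2 => by dsimp only; rw [nu_E k t h1 h2]) (fun k => by rw [nu_pow])
    exact ⟨fun k => y (2 ^ k - 1), inj_of hs h, funext h⟩
  · rintro ⟨σ, hσ, rfl⟩
    refine ⟨fun d a b hd hE => nu_sq d a b hd fun t h1 h2 => hσ (hE t h1 h2), fun n hn => ?_⟩
    have h1 := Nat.pow_log_le_self 2 (show n ≠ 0 by omega)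
    have h2 := Nat.lt_pow_succ_log_self (b := 2) (by norm_num) n
    refine ⟨0, 2 ^ (Nat.log 2 n + 1), by positivity, by rw [pow_succ]; omega, fun t h3 h4 => ?_⟩
    exact congrArg σ (nu_E _ t h3 (by omega))

end Pool.Agent.H.MP_2232d5_co
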